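import Mathlib

set_option autoImplicit false

namespace Pool.Agent.Results.MP_dc8297_co.Bottleneck

open Finset

def Regular {v : ℕ} (L : Fin v → Fin v → Prop) (k : ℕ) : Prop :=
  (∀ s, {t | L s t}.ncard = k) ∧ ∀ t, {s | L s t}.ncard = k

def PlainPath {v : ℕ} (L : Fin v → Fin v → Prop) (n : ℕ) (s t : Fin v) (p : Fin (n + 1) → Fin v) :
    Prop :=
  p 0 = s ∧ p (Fin.last n) = t ∧ ∀ j : Fin n, L (p j.castSucc) (p j.succ)

def ExtConn {v : ℕ} (L : Fin v → Fin v → Prop) (n : ℕ) : Prop :=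
  ∀ s t, ∃ p, PlainPath L n s t p

def Rearr {v : ℕ} (L : Fin v → Fin v → Prop) (n : ℕ) : Prop :=
  ∀ M : Fin v → Fin v → ℕ, (∀ s, ∑ t, M s t = {t | L s t}.ncard) →
    (∀ t, ∑ s, M s t = {s | L s t}.ncard) →
    ∃ P : (Σ st : Fin v × Fin v, Fin (M st.1 st.2)) → Fin (n + 1) → Fin v,
      (∀ e, PlainPath L n e.1.1 e.1.2 (P e)) ∧
      ∀ e e', e ≠ e' → ∀ j : Fin n,
        ¬ (P e j.castSucc = P e' j.castSucc ∧ P e j.succ = P e' j.succ)

def Lb (s t : Fin 6) : Bool :=
  if s = 0 ∧ t = 1 then false else if s = 3 ∧ t = 4 then false else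
  if s = 0 ∧ t = 4 then true else if s = 3 ∧ t = 1 then true else decide (s.1 / 3 = t.1 / 3)

def L0 (s t : Fin 6) : Prop := Lb s t = true

instance (s t : Fin 6) : Decidable (L0 s t) := inferInstanceAs (Decidable (Lb s t = true))

lemma reg : Regular L0 3 := by
  constructor
  · intro s
    rw [show {t | L0 s t} = ↑(univ.filter (fun t => L0 s t)) by ext; simp, Set.ncard_coe_finset]
    revert s; decide
  · intro t
    rw [show {s | L0 s t} = ↑(univ.filter (fun s => L0 s t)) by ext; simp, Set.ncard_coe_finset]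
    revert t; decide

lemma conn : ExtConn L0 3 := by
  have h : ∀ s t : Fin 6, ∃ a b, L0 s a ∧ L0 a b ∧ L0 b t := by decide
  intro s t
  obtain ⟨a, b, h1, h2, h3⟩ := h s t
  refine ⟨![s, a, b, t], rfl, rfl, fun j => ?_⟩
  fin_cases j
  · exact h1
  · exact h2
  · exact h3

lemma cross (n : ℕ) (p : Fin (n + 1) → Fin 6) (h0 : (p 0).1 < 3) (h1 : ¬ (p (Fin.last n)).1 < 3) :
    ∃ j : Fin n, (p j.castSucc).1 < 3 ∧ ¬ (p j.succ).1 < 3 := by
  by_contra hc
  push Not at hc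
  apply h1
  have : ∀ i : Fin (n + 1), (p i).1 < 3 := by
    intro i
    induction i using Fin.induction with
    | zero => exact h0
    | succ i ih => exact hc i ih
  exact this _

lemma notR : ¬ Rearr L0 6 := by
  intro h
  obtain ⟨P, hP, hd⟩ := h (fun s t => if s.1 / 3 = t.1 / 3 then 0 else 1)
    (fun s => by rw [reg.1 s]; revert s; decide) (fun t => by rw [reg.2 t]; revert t; decide)
  have hL : ∀ a b : Fin 6, L0 a b → a.1 < 3 → ¬ b.1 < 3 → a = 0 ∧ b = 4 := by decide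
  let f : Fin 3 × Fin 3 → (Σ st : Fin 6 × Fin 6,
      Fin ((fun s t : Fin 6 => if s.1 / 3 = t.1 / 3 then 0 else 1) st.1 st.2)) := fun x =>
    ⟨(⟨x.1.1, by omega⟩, ⟨x.2.1 + 3, by omega⟩), ⟨0, by
      have := x.1.2
      have := x.2.2
      simp only
      rw [if_neg (by omega)]; omega⟩⟩
  have hf : Function.Injective f := by
    intro x y e
    have := congrArg (fun z => z.1) e
    simp only [f, Prod.mk.injEq, Fin.mk.injEq] at this
    exact Prod.ext (Fin.ext this.1) (Fin.ext (by omega))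
  have hx : ∀ x, ∃ j : Fin 6, P (f x) j.castSucc = 0 ∧ P (f x) j.succ = 4 := by
    intro x
    obtain ⟨a, b, c⟩ := hP (f x)
    obtain ⟨j, h1, h2⟩ := cross 6 (P (f x)) (by rw [a]; exact x.1.2) (by rw [b]; simp [f])
    exact ⟨j, hL _ _ (c j) h1 h2⟩
  choose g hg using hx
  have hg' : Function.Injective g := by
    intro x y e
    by_contra hne
    refine hd _ _ (hf.ne hne) (g x) ⟨?_, ?_⟩
    · rw [(hg x).1, e, (hg y).1]
    · rw [(hg x).2, e, (hg y).2]
  have := Fintype.card_le_of_injective g hg'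
  simp at this

theorem result : ∃ (v k m : ℕ) (L : Fin v → Fin v → Prop), 1 ≤ k ∧ 1 ≤ m ∧ Regular L k ∧
    ExtConn L m ∧ ¬ Rearr L (2 * m) :=
  ⟨6, 3, 3, L0, by norm_num, by norm_num, reg, conn, notR⟩

end Pool.Agent.Results.MP_dc8297_co.Bottleneck
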